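import Pool.Agent.Q104.CT.Main

set_option autoImplicit false

/-!
# A Cannon-Thurston lamination whose set of endpoints has positive Hausdorff dimension

The free group of rank three acts on the quotient of its boundary in which the translates of the
boundary of a free factor of rank two are collapsed to points.
-/

namespace Pool.Agent.Results.MP_d1e581_al.CollapsedLamination

open Filter Topology Pool.Agent.Q104.CT

/-- The free group `H` of rank three has a non-elementary convergence action on a metrizable
compactum `Z` with a surjective equivariant Cannon-Thurston map `φ` such that the set of endpoints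
of the Cannon-Thurston lamination has Hausdorff dimension at least one. -/
theorem result :
    ∃ (Z : Type) (_ : TopologicalSpace Z) (_ : MulAction H Z) (φ : Bd → Z),
      CompactSpace Z ∧ TopologicalSpace.MetrizableSpace Z ∧ IsTripleConvergence H Z ∧
      IsConvergence H Z ∧
      (∃ x ∈ LimitSet H Z, ∃ y ∈ LimitSet H Z, ∃ z ∈ LimitSet H Z, x ≠ y ∧ x ≠ z ∧ y ≠ z) ∧
      Continuous φ ∧ Function.Surjective φ ∧ (∀ (h : H) (p : Bd), φ (h • p) = h • φ p) ∧
      (∃ z₀ : Z, ∀ (h : ℕ → H) (ξ : Bd), ConvTo h ξ →
        Tendsto (fun n => h n • z₀) atTop (𝓝 (φ ξ))) ∧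
      1 ≤ dimH {p : Bd | ∃ q : Bd, p ≠ q ∧ φ p = φ q} := by
  have := metrizable
  have h0 : rep (0, true) ∈ PW := rep_mem _ (by decide)
  refine ⟨Z, inferInstance, inferInstance, phi, inferInstance, metrizable,
    triple_of_seq isConvergence, isConvergence,
    ⟨_, mem_limitSet (phi (rep (2, true))), _, mem_limitSet (phi (rep (2, false))), _,
      mem_limitSet (phi (rep (0, true))), phi_cc'_ne, phi_c_ne h0, phi_c'_ne h0⟩,
    phi_continuous, phi_surj, phi_smul, ⟨_, fun h ξ hh => ct hh⟩, ?_⟩
  refine one_le_dimH.trans (dimH_mono fun p hp => ?_)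
  by_cases h : p = rep (0, true)
  · refine ⟨rep (1, true), fun h' => ?_, phi_PW hp (rep_mem _ (by decide))⟩
    rw [h] at h'
    have := congrArg (fun q => q.get 0) h'
    simp [rep_get] at this
  · exact ⟨rep (0, true), h, phi_PW hp (rep_mem _ (by decide))⟩

end Pool.Agent.Results.MP_d1e581_al.CollapsedLamination
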